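import Pool.Agent.H715.TW.Stm

namespace Pool.Agent.H358.TW

open Pool.Agent.H715.TW

/-- alternating sum of an indicator `[R ⊆ U]` -/
lemma alt {A : Type*} [CommRing A] (S : Finset ℕ) : ∀ (R : Finset ℕ) (c : A),
    ∑ U ∈ S.powerset, (-1 : A) ^ (S.card - U.card) * (if R ⊆ U then c else 0)
      = if R = S then c else 0 := by
  classical
  induction S using Finset.induction_on with
  | empty =>
    intro R c
    simp [Finset.subset_empty]
  | insert a S ha ih =>
    intro R c
    rw [Finset.sum_powerset_insert ha]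
    have h1 : ∀ U ∈ S.powerset, (-1 : A) ^ ((insert a S).card - U.card) * (if R ⊆ U then c else 0)
        = - ((-1 : A) ^ (S.card - U.card) * (if R ⊆ U then c else 0)) := by
      intro U hU
      have hc : U.card ≤ S.card := Finset.card_le_card (Finset.mem_powerset.1 hU)
      rw [Finset.card_insert_of_notMem ha, show S.card + 1 - U.card = (S.card - U.card) + 1 by omega,
        pow_succ]
      ring
    have h2 : ∀ U ∈ S.powerset, (-1 : A) ^ ((insert a S).card - (insert a U).card) *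
          (if R ⊆ insert a U then c else 0)
        = (-1 : A) ^ (S.card - U.card) * (if R.erase a ⊆ U then c else 0) := by
      intro U hU
      have haU : a ∉ U := fun h => ha (Finset.mem_powerset.1 hU h)
      rw [Finset.card_insert_of_notMem ha, Finset.card_insert_of_notMem haU,
        Nat.add_sub_add_right]
      simp only [Finset.subset_insert_iff]
    rw [Finset.sum_congr rfl h1, Finset.sum_congr rfl h2, Finset.sum_neg_distrib, ih, ih]
    by_cases haR : a ∈ R
    · have h3 : R ≠ S := fun h => ha (h ▸ haR)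
      have h4 : R.erase a = S ↔ R = insert a S := by
        constructor
        · intro h; rw [← h, Finset.insert_erase haR]
        · intro h; rw [h, Finset.erase_insert ha]
      simp only [h3, if_false, neg_zero, zero_add, h4]
    · have h4 : R ≠ insert a S := fun h => haR (h ▸ Finset.mem_insert_self a S)
      rw [Finset.erase_eq_of_notMem haR]
      simp only [h4, if_false]
      ring

theorem gl : S_GL := by
  classical
  intro p hp w n0 S hn0 hS hsum
  set nS : ℕ := n0 * ∏ q ∈ S, q with hnS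
  have hprod0 : ∀ U : Finset ℕ, U ⊆ S → ∏ q ∈ U, q ≠ 0 := by
    intro U hU
    exact Finset.prod_ne_zero_iff.2 fun q hq => (hS q (hU hq)).1.ne_zero
  have hn0' : ∀ U : Finset ℕ, U ⊆ S → ((n0 * ∏ q ∈ U, q : ℕ) : ℤ) ≠ 0 := by
    intro U hU
    exact_mod_cast mul_ne_zero hn0 (hprod0 U hU)
  have hnSne : (nS : ℤ) ≠ 0 := hn0' S (Finset.Subset.refl S)
  have hdvdS : ∀ U : Finset ℕ, U ⊆ S → (n0 * ∏ q ∈ U, q) ∣ nS := fun U hU =>
    Nat.mul_dvd_mul_left _ (Finset.prod_dvd_prod_of_subset _ _ _ hU)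
  set F : Finset ℕ := (finite_rk hnSne).toFinset with hF
  have hFmem : ∀ t, t ∈ F ↔ t.Prime ∧ rk t ∣ nS := by
    intro t
    rw [hF, Set.Finite.mem_toFinset, Set.mem_ofPred_eq, Int.natCast_dvd_natCast]
  -- the finite sum
  have hprw : ∀ U : Finset ℕ, U ⊆ S → prw p w ((n0 * ∏ q ∈ U, q : ℕ) : ℤ)
      = ∑ t ∈ F, w t * ((dd t ((n0 * ∏ q ∈ U, q : ℕ) : ℤ) : ℕ) : ZMod p) := by
    intro U hU
    unfold prw
    have := finsum_subtype_eq_finsum_cond
      (f := fun t : ℕ => w t * ((dd t ((n0 * ∏ q ∈ U, q : ℕ) : ℤ) : ℕ) : ZMod p))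
      (fun s : ℕ => s.Prime)
    rw [this]
    refine finsum_mem_eq_sum_of_subset (s := {s : ℕ | s.Prime}) _ ?_ ?_
    · rintro t ⟨ht, htne⟩
      have htp : t.Prime := ht
      rw [Finset.mem_coe, hFmem]
      refine ⟨htp, ?_⟩
      by_contra hcon
      apply htne
      have : ¬ (rk t : ℤ) ∣ ((n0 * ∏ q ∈ U, q : ℕ) : ℤ) := by
        rw [Int.natCast_dvd_natCast]
        exact fun h => hcon (h.trans (hdvdS U hU))
      show w t * ((dd t ((n0 * ∏ q ∈ U, q : ℕ) : ℤ) : ℕ) : ZMod p) = 0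
      rw [dd_eq_zero htp (hn0' U hU) this]
      simp
    · intro t ht
      exact ((hFmem t).1 (Finset.mem_coe.1 ht)).1
  have hswap : ∑ U ∈ S.powerset, (-1) ^ (S.card - U.card) * prw p w ((n0 * ∏ q ∈ U, q : ℕ) : ℤ)
      = ∑ t ∈ F, w t * ∑ U ∈ S.powerset, (-1) ^ (S.card - U.card) *
          ((dd t ((n0 * ∏ q ∈ U, q : ℕ) : ℤ) : ℕ) : ZMod p) := by
    have h1 : ∀ U ∈ S.powerset, (-1) ^ (S.card - U.card) * prw p w ((n0 * ∏ q ∈ U, q : ℕ) : ℤ)
        = ∑ t ∈ F, w t * ((-1) ^ (S.card - U.card) *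
          ((dd t ((n0 * ∏ q ∈ U, q : ℕ) : ℤ) : ℕ) : ZMod p)) := by
      intro U hU
      rw [hprw U (Finset.mem_powerset.1 hU), Finset.mul_sum]
      refine Finset.sum_congr rfl fun t _ => ?_
      ring
    rw [Finset.sum_congr rfl h1, Finset.sum_comm]
    refine Finset.sum_congr rfl fun t _ => ?_
    rw [Finset.mul_sum]
  rw [hswap] at hsum
  obtain ⟨t, htF, htne⟩ := Finset.exists_ne_zero_of_sum_ne_zero hsum
  obtain ⟨htp, htd⟩ := (hFmem t).1 htF
  have hwt : w t ≠ 0 := left_ne_zero_of_mul htne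
  have hsumt := right_ne_zero_of_mul htne
  have := Fact.mk htp
  set R : Finset ℕ := (rk t).primeFactors \ n0.primeFactors with hR
  have hrk0 : rk t ≠ 0 := Rank.rk_ne_zero_of_dvd hnSne (by exact_mod_cast htd)
  -- `rk t ∣ nU → R ⊆ U`
  have hRsub : ∀ U : Finset ℕ, U ⊆ S → rk t ∣ n0 * ∏ q ∈ U, q → R ⊆ U := by
    intro U hU hd q hq
    rw [hR, Finset.mem_sdiff] at hq
    obtain ⟨hq1, hq2⟩ := hq
    have hqp := Nat.prime_of_mem_primeFactors hq1
    have hqd : q ∣ n0 * ∏ q ∈ U, q := (Nat.dvd_of_mem_primeFactors hq1).trans hd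
    rcases hqp.dvd_mul.1 hqd with h | h
    · exact absurd (Nat.mem_primeFactors.2 ⟨hqp, h, hn0⟩) hq2
    · obtain ⟨r, hr, hqr⟩ := (Prime.dvd_finsetProd_iff hqp.prime _).1 h
      have : q = r := (Nat.prime_dvd_prime_iff_eq hqp (hS r (hU hr)).1).1 hqr
      rw [this]; exact hr
  have hRiff : ∀ U : Finset ℕ, U ⊆ S → (rk t ∣ n0 * ∏ q ∈ U, q ↔ R ⊆ U) := by
    intro U hU
    refine ⟨hRsub U hU, fun hRU => ?_⟩
    have hcop : Nat.Coprime (rk t) (∏ q ∈ S \ U, q) := by
      refine Nat.Coprime.prod_right fun q hq => ?_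
      rw [Finset.mem_sdiff] at hq
      obtain ⟨hqp, hqn⟩ := hS q hq.1
      rw [Nat.coprime_comm, Nat.Prime.coprime_iff_not_dvd hqp]
      intro hqd
      apply hq.2
      apply hRU
      rw [hR, Finset.mem_sdiff]
      exact ⟨Nat.mem_primeFactors.2 ⟨hqp, hqd, hrk0⟩, fun h => hqn (Nat.dvd_of_mem_primeFactors h)⟩
    have h1 : nS = (n0 * ∏ q ∈ U, q) * ∏ q ∈ S \ U, q := by
      rw [hnS, mul_assoc, mul_comm (∏ q ∈ U, q), Finset.prod_sdiff hU]
    rw [h1] at htd
    exact hcop.dvd_of_dvd_mul_right htd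
  set e : ZMod p := ((dd t (rk t) : ℕ) : ZMod p) + ((padicValNat t n0 : ℕ) : ZMod p)
    - ((padicValNat t (rk t) : ℕ) : ZMod p) with he
  have hval : ∀ U : Finset ℕ, U ⊆ S →
      padicValNat t (∏ q ∈ U, q) = if t ∈ U then 1 else 0 := by
    intro U hU
    by_cases htU : t ∈ U
    · rw [if_pos htU, ← Finset.mul_prod_erase U (fun q => q) htU,
        padicValNat.mul htp.ne_zero (hprod0 _ ((Finset.erase_subset _ _).trans hU)),
        padicValNat_self, padicValNat.eq_zero_of_not_dvd]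
      intro hd
      obtain ⟨r, hr, hqr⟩ := (Prime.dvd_finsetProd_iff htp.prime _).1 hd
      have hrU := Finset.mem_erase.1 hr
      exact hrU.1 ((Nat.prime_dvd_prime_iff_eq htp (hS r (hU hrU.2)).1).1 hqr).symm
    · rw [if_neg htU, padicValNat.eq_zero_of_not_dvd]
      intro hd
      obtain ⟨r, hr, hqr⟩ := (Prime.dvd_finsetProd_iff htp.prime _).1 hd
      have := (Nat.prime_dvd_prime_iff_eq htp (hS r (hU hr)).1).1 hqr
      exact htU (this ▸ hr)
  have hdd : ∀ U : Finset ℕ, U ⊆ S → R ⊆ U →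
      ((dd t ((n0 * ∏ q ∈ U, q : ℕ) : ℤ) : ℕ) : ZMod p) = e + if t ∈ U then 1 else 0 := by
    intro U hU hRU
    have h1 := dd_eq htp (hn0' U hU) (by exact_mod_cast (hRiff U hU).2 hRU)
    rw [padicValInt.of_nat, padicValNat.mul hn0 (hprod0 U hU), hval U hU] at h1
    have h2 : ((dd t ((n0 * ∏ q ∈ U, q : ℕ) : ℤ) : ℕ) : ZMod p) + ((padicValNat t (rk t) : ℕ) : ZMod p)
        = ((dd t (rk t) : ℕ) : ZMod p) + (((padicValNat t n0 : ℕ) : ZMod p) +
          (if t ∈ U then 1 else 0)) := by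
      have := congrArg (Nat.cast : ℕ → ZMod p) h1
      push_cast at this ⊢
      exact this
    rw [he]
    linear_combination h2
  have hterm : ∀ U ∈ S.powerset, (-1) ^ (S.card - U.card) *
          ((dd t ((n0 * ∏ q ∈ U, q : ℕ) : ℤ) : ℕ) : ZMod p)
      = (-1) ^ (S.card - U.card) * (if R ⊆ U then e else 0)
        + (-1) ^ (S.card - U.card) * (if insert t R ⊆ U then 1 else 0) := by
    intro U hU'
    have hU := Finset.mem_powerset.1 hU'
    rw [← mul_add]
    congr 1
    by_cases hRU : R ⊆ U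
    · rw [hdd U hU hRU, if_pos hRU]
      congr 1
      simp only [Finset.insert_subset_iff, hRU, and_true]
    · have h1 : ¬ insert t R ⊆ U := fun h => hRU ((Finset.subset_insert _ _).trans h)
      rw [if_neg hRU, if_neg h1, dd_eq_zero htp (hn0' U hU)]
      · simp
      · rw [Int.natCast_dvd_natCast, hRiff U hU]
        exact hRU
  rw [Finset.sum_congr rfl hterm, Finset.sum_add_distrib, alt, alt] at hsumt
  refine ⟨t, htp, hwt, htd, ?_⟩
  by_cases hRS : R = S
  · left
    refine ⟨hRS, ?_⟩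
    have h1 := hdd S (Finset.Subset.refl S) (hRS ▸ Finset.Subset.refl _)
    rw [h1]
    rw [if_pos hRS] at hsumt
    have h2 : (insert t R = S) ↔ t ∈ S := by
      rw [hRS]; exact Finset.insert_eq_self
    simp only [h2] at hsumt
    exact hsumt
  · right
    rw [if_neg hRS, zero_add] at hsumt
    have h3 : insert t R = S := by
      by_contra h
      rw [if_neg h] at hsumt
      exact hsumt rfl
    have htR : t ∉ R := by
      intro h
      apply hRS
      rw [← h3, Finset.insert_eq_self.2 h]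
    refine ⟨h3 ▸ Finset.mem_insert_self t R, ?_⟩
    rw [← h3, Finset.erase_insert htR]

end Pool.Agent.H358.TW
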