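import Pool.Agent.H715.TW.Stm

namespace Pool.Agent.H358.TW.PR2

open Pool.Agent.H715.TW
open Pool.Agent.H715.TW.ZZaux
open Pool.Agent.H528R2 (Vge val_mul val_div val_pow val_sub val_add val_inv ne_zero_of_val vge_ofNat vge_int)

/-- `F m = prw 2 wt2 (2m)` -/
noncomputable def FF (m : ℤ) : ZMod 2 := prw 2 wt2 (2 * m)

lemma FF_neg (m : ℤ) : FF (-m) = FF m := by
  unfold FF prw
  rw [show 2 * -m = -(2 * m) by ring]
  simp only [dd_neg]

lemma supp_fin (w : ℕ → ZMod 2) (n : ℤ) :
    (Function.support (fun s : {s : ℕ // s.Prime} => w s * ((dd s n : ℕ) : ZMod 2))).Finite := by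
  have h := (finite_dd n).preimage (f := (Subtype.val : {s : ℕ // s.Prime} → ℕ))
    Subtype.val_injective.injOn
  refine h.subset ?_
  intro s hs
  simp only [Function.mem_support] at hs
  simp only [Set.mem_preimage, Set.mem_ofPred_eq]
  refine ⟨s.2, fun h0 => hs ?_⟩
  rw [h0]; simp

lemma two_zmod : (2 : ZMod 2) = 0 := by decide

lemma key (hd : S_DIFF) (h2 : S_CH2) {m n : ℤ} (hm : m ≠ 0) (hn : n ≠ 0) (h1 : m ≠ n)
    (h1' : m ≠ -n) (hlt : padicValRat 2 (zz (2 * m)) < padicValRat 2 (zz (2 * n))) :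
    FF (m + n) + FF (m - n) =
      if padicValRat 2 (zz (2 * n)) = padicValRat 2 (zz (2 * m)) + 2 then 1 else 0 := by
  obtain ⟨ξ, hξ⟩ := sq_even (n := 2 * m) (even_two_mul m)
  obtain ⟨η, hη⟩ := sq_even (n := 2 * n) (even_two_mul n)
  have hm2 : 2 * m ≠ 0 := by omega
  have hn2 : 2 * n ≠ 0 := by omega
  have hξ0 : ξ ≠ 0 := by rintro rfl; exact zz_ne0 hm2 (by rw [hξ]; ring)
  have hη0 : η ≠ 0 := by rintro rfl; exact zz_ne0 hn2 (by rw [hη]; ring)
  have hv1 : padicValRat 2 (zz (2 * m)) = 2 * padicValRat 2 ξ := by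
    rw [hξ, val_mul Nat.prime_two hξ0 hξ0]; ring
  have hv2 : padicValRat 2 (zz (2 * n)) = 2 * padicValRat 2 η := by
    rw [hη, val_mul Nat.prime_two hη0 hη0]; ring
  have h3 := h2 ξ η hξ0 hη0 (by omega)
  have h4 : (padicValRat 2 η = padicValRat 2 ξ + 1) ↔
      (padicValRat 2 (zz (2 * n)) = padicValRat 2 (zz (2 * m)) + 2) := by
    rw [hv1, hv2]; omega
  simp only [h4] at h3
  rw [← h3]
  unfold FF prw
  rw [← finsum_add_distrib (supp_fin wt2 _) (supp_fin wt2 _)]
  refine finsum_congr fun s => ?_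
  by_cases hs2 : (s : ℕ) = 2
  · rw [hs2]
    have : wt2 2 = 0 := by decide
    rw [this]; ring
  · have h5 := hd s (2 * m) (2 * n) s.2 hs2 hm2 hn2 (by omega) (by omega)
    have h6 : ξ ^ 2 - η ^ 2 = zz (2 * m) - zz (2 * n) := by rw [hξ, hη]; ring
    rw [h6, h5, ← mul_add]
    congr 1
    rw [show 2 * (m + n) = 2 * m + 2 * n by ring, show 2 * (m - n) = 2 * m - 2 * n by ring]
    push_cast
    linear_combination (((dd s (2 * m) : ℕ) : ZMod 2) + ((dd s (2 * n) : ℕ) : ZMod 2)) * two_zmod

theorem pr2 (hd : S_DIFF) (hv : S_V2) (hc : S_COP) (hn : S_CH2N) (h2 : S_CH2) : S_PR2 := by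
  have tab : ∀ n : ℤ, ¬ (14 : ℤ) ∣ n → padicValRat 2 (zz n) = v2tab (n % 14) :=
    fun n => (hv.1 n).1
  have F1 : FF 1 = 1 := by
    have h := hc 2 256 3 (by norm_num) (by norm_num) (by norm_num) (by rw [zz_two]; norm_num)
    have h' := hn 3 (by norm_num)
    have : wt2 3 = 1 := by decide
    rw [← this, ← h']
    unfold FF prw
    refine finsum_congr fun s => ?_
    rw [show (2 * 1 : ℤ) = 2 by norm_num, h s s.2]
  have F2 : FF 2 = 0 := by
    have h := hc 4 38416 129 (by norm_num) (by norm_num) (by norm_num) (by rw [zz_four]; norm_num)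
    have h' := hn 129 (by norm_num)
    have : wt2 129 = 0 := by decide
    rw [← this, ← h']
    unfold FF prw
    refine finsum_congr fun s => ?_
    rw [show (2 * 2 : ℤ) = 4 by norm_num, h s s.2]
  have F3 : FF 3 = 1 := by
    have h := key hd h2 (m := 2) (n := 1) (by norm_num) (by norm_num) (by norm_num) (by norm_num)
      (by rw [tab _ (by norm_num), tab _ (by norm_num)]; decide)
    rw [tab _ (by norm_num), tab _ (by norm_num), if_neg (by decide)] at h
    norm_num at h
    rw [F1] at h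
    have e : FF 3 = FF 3 + 1 + 1 := by rw [add_assoc]; norm_num; exact (by decide)
    rw [e, h, zero_add]
  have F4 : FF 4 = 1 := by
    have h := key hd h2 (m := 3) (n := 1) (by norm_num) (by norm_num) (by norm_num) (by norm_num)
      (by rw [tab _ (by norm_num), tab _ (by norm_num)]; decide)
    rw [tab _ (by norm_num), tab _ (by norm_num), if_pos (by decide)] at h
    norm_num at h
    rw [F2] at h
    simpa using h
  have F5 : FF 5 = 0 := by
    have h := key hd h2 (m := 2) (n := 3) (by norm_num) (by norm_num) (by norm_num) (by norm_num)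
      (by rw [tab _ (by norm_num), tab _ (by norm_num)]; decide)
    rw [tab _ (by norm_num), tab _ (by norm_num), if_pos (by decide)] at h
    norm_num at h
    rw [FF_neg, F1] at h
    simpa using h
  have F6 : FF 6 = 1 := by
    have h := key hd h2 (m := 5) (n := 1) (by norm_num) (by norm_num) (by norm_num) (by norm_num)
      (by rw [tab _ (by norm_num), tab _ (by norm_num)]; decide)
    rw [tab _ (by norm_num), tab _ (by norm_num), if_neg (by decide)] at h
    norm_num at h
    rw [F4] at h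
    have e : FF 6 = FF 6 + 1 + 1 := by rw [add_assoc]; norm_num; exact (by decide)
    rw [e, h, zero_add]
  have period : ∀ m : ℤ, ¬ (7 : ℤ) ∣ m → FF (m + 14) = FF m := by
    intro m hm
    have h14 : padicValRat 2 (zz 14) ≤ -6 := (hv.1 14).2 (by norm_num) (dvd_refl _)
    have hpos : 0 < padicValRat 2 (zz (2 * (m + 7))) := by
      rw [tab _ (by omega)]
      unfold v2tab; split_ifs <;> norm_num
    have h := key hd h2 (m := 7) (n := m + 7) (by norm_num) (by omega) (by omega) (by omega)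
      (by norm_num at h14 hpos ⊢; omega)
    rw [if_neg (by norm_num at h14 hpos ⊢; omega)] at h
    rw [show (7 : ℤ) + (m + 7) = m + 14 by ring, show (7 : ℤ) - (m + 7) = -m by ring, FF_neg] at h
    have e : ∀ a b : ZMod 2, a + b = 0 → a = b := by decide
    exact e _ _ h
  have period' : ∀ (k : ℕ) (m : ℤ), ¬ (7 : ℤ) ∣ m → FF (m + 14 * k) = FF m := by
    intro k
    induction k with
    | zero => intro m _; simp
    | succ k ih =>
      intro m hm
      rw [show m + 14 * ((k + 1 : ℕ) : ℤ) = (m + 14 * k) + 14 by push_cast; ring,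
        period _ (by omega), ih m hm]
  have periodZ : ∀ (m n : ℤ), ¬ (7 : ℤ) ∣ m → n % 14 = m % 14 → FF n = FF m := by
    intro m n hm hmn
    rcases le_total m n with h | h
    · have h1 := period' ((n - m) / 14).toNat m hm
      rw [← h1]
      congr 1
      omega
    · have h1 := period' ((m - n) / 14).toNat n (by omega)
      rw [← h1]
      congr 1
      omega
  intro m hm
  have aux : ∀ (a : ℤ) (c : ZMod 2), FF a = c → ¬ (7 : ℤ) ∣ a →
      (m % 14 = a % 14 ∨ m % 14 = (-a) % 14) → prw 2 wt2 (2 * m) = c := by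
    intro a c ha h7 hma
    change FF m = c
    rcases hma with h | h
    · rw [periodZ a m h7 h, ha]
    · rw [periodZ (-a) m (by omega) h, FF_neg, ha]
  have h1 : m % 14 = 1 ∨ m % 14 = 2 ∨ m % 14 = 3 ∨ m % 14 = 4 ∨ m % 14 = 5 ∨ m % 14 = 6 ∨
    m % 14 = 8 ∨ m % 14 = 9 ∨ m % 14 = 10 ∨ m % 14 = 11 ∨ m % 14 = 12 ∨
    m % 14 = 13 := by omega
  rcases h1 with h | h | h | h | h | h | h | h | h | h | h | h
  · rw [aux 1 1 F1 (by decide) (by rw [h]; decide), if_neg (by omega)]
  · rw [aux 2 0 F2 (by decide) (by rw [h]; decide), if_pos (by omega)]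
  · rw [aux 3 1 F3 (by decide) (by rw [h]; decide), if_neg (by omega)]
  · rw [aux 4 1 F4 (by decide) (by rw [h]; decide), if_neg (by omega)]
  · rw [aux 5 0 F5 (by decide) (by rw [h]; decide), if_pos (by omega)]
  · rw [aux 6 1 F6 (by decide) (by rw [h]; decide), if_neg (by omega)]
  · rw [aux 6 1 F6 (by decide) (by rw [h]; decide), if_neg (by omega)]
  · rw [aux 5 0 F5 (by decide) (by rw [h]; decide), if_pos (by omega)]
  · rw [aux 4 1 F4 (by decide) (by rw [h]; decide), if_neg (by omega)]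
  · rw [aux 3 1 F3 (by decide) (by rw [h]; decide), if_neg (by omega)]
  · rw [aux 2 0 F2 (by decide) (by rw [h]; decide), if_pos (by omega)]
  · rw [aux 1 1 F1 (by decide) (by rw [h]; decide), if_neg (by omega)]

end Pool.Agent.H358.TW.PR2

namespace Pool.Agent.H358.TW
open Pool.Agent.H715.TW
theorem pr2 (hd : S_DIFF) (hv : S_V2) (hc : S_COP) (hn : S_CH2N) (h2 : S_CH2) : S_PR2 :=
  PR2.pr2 hd hv hc hn h2
end Pool.Agent.H358.TW
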