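import Pool.Agent.H715.TW.Stm

namespace Pool.Agent.H358.TW

open Pool.Agent.H715.TW
open Pool.Agent.H715.TW.ZZaux
open Pool.Agent.H528R2 (Vge val_mul val_div val_pow val_sub val_add val_inv ne_zero_of_val vge_ofNat vge_int)

lemma two_pr : Nat.Prime 2 := Nat.prime_two

lemma val2_odd (a : ℤ) (h : ¬ (2 : ℤ) ∣ a) : padicValRat 2 (a : ℚ) = 0 := by
  rw [padicValRat.of_int, padicValInt.eq_zero_of_not_dvd (by exact_mod_cast h)]
  rfl

lemma val2_ofNat : padicValRat 2 (2 : ℚ) = 1 := by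
  have := padicValRat.self (p := 2) (by norm_num)
  exact_mod_cast this

lemma val2_frac (k : ℕ) (a b : ℤ) (ha : ¬ (2 : ℤ) ∣ a) (hb : ¬ (2 : ℤ) ∣ b) (x : ℚ)
    (hx : x = 2 ^ k * a / b) : padicValRat 2 x = k := by
  have ha0 : (a : ℚ) ≠ 0 := by rintro h; apply ha; rw [Int.cast_eq_zero] at h; simp [h]
  have hb0 : (b : ℚ) ≠ 0 := by rintro h; apply hb; rw [Int.cast_eq_zero] at h; simp [h]
  rw [hx, val_div two_pr (mul_ne_zero (by positivity) ha0) hb0,
    val_mul two_pr (by positivity) ha0, val_pow two_pr, val2_ofNat, val2_odd a ha, val2_odd b hb]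
  ring

lemma v_1 : padicValRat 2 (zz 1) = 5 :=
  val2_frac 5 (-1) 1 (by decide) (by decide) _ (by rw [zz_one]; norm_num)
lemma v_2 : padicValRat 2 (zz 2) = 8 :=
  val2_frac 8 1 9 (by decide) (by decide) _ (by rw [zz_two]; norm_num)
lemma v_3 : padicValRat 2 (zz 3) = 7 :=
  val2_frac 7 (-169) 289 (by decide) (by decide) _ (by rw [zz_three]; norm_num)
lemma v_4 : padicValRat 2 (zz 4) = 4 :=
  val2_frac 4 2401 16641 (by decide) (by decide) _ (by rw [zz_four]; norm_num)
lemma v_5 : padicValRat 2 (zz 5) = 3 := by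
  have h := (add_zz zz_four yy_four zz_one yy_one (by norm_num) (by norm_num) (by norm_num)).1
  norm_num at h
  exact val2_frac 3 (-28143025) 4405801 (by decide) (by decide) _ (by rw [h]; norm_num)
lemma v_6 : padicValRat 2 (zz 6) = 6 := by
  have h := (dbl_zz zz_three yy_three (by norm_num) (by norm_num)).1
  norm_num at h
  exact val2_frac 6 21015431089 6650239401 (by decide) (by decide) _ (by rw [h]; norm_num)
lemma v_7 : padicValRat 2 (zz 7) = 11 := by
  refine val2_frac 11 (-(13924563323045888 / 2048)) 537893030335441 (by decide) (by decide) _ ?_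
  rw [zz_seven]; norm_num

lemma v_14 : padicValRat 2 (zz 14) = -6 := by
  have h1 : ((2 : ℚ) ^ 6) ≠ 0 := by norm_num
  have h2 : padicValRat 2 (zz 14 * 2 ^ 6) = (0 : ℕ) := by
    refine val2_frac 0 37890323465335790656460495553885874042229136614334787007809
      (22202561341282753947707255618622015317990303957849664 / 64) (by decide) (by decide) _ ?_
    rw [zz_fourteen]; norm_num
  rw [val_mul two_pr (zz_ne0 (by norm_num)) h1, val_pow two_pr, val2_ofNat] at h2
  push_cast at h2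
  omega

lemma v_14k {k : ℤ} (hk : k ≠ 0) : padicValRat 2 (zz (14 * k)) ≤ -6 := by
  rw [Rank.zz_mul two_pr (by rw [v_14]; norm_num) hk, v_14]
  have : (0 : ℤ) ≤ padicValInt 2 k := by positivity
  omega

lemma step {m v : ℤ} (hm : padicValRat 2 (zz m) = v) (h3 : 3 ≤ v) (h11 : v ≤ 11) {k : ℤ}
    (hk : k ≠ 0) : padicValRat 2 (zz (m + 14 * k)) = v := by
  have hd := v_14k hk
  set d : ℤ := padicValRat 2 (zz (14 * k)) with hdd
  have hn0 : 14 * k ≠ 0 := by omega
  have hm0 : m ≠ 0 := by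
    rintro rfl
    have : zz 0 = 0 := by simp [zz]
    rw [this] at hm
    simp at hm
    omega
  have hx1 : zz m ≠ 0 := zz_ne0 hm0
  have hx2 : zz (14 * k) ≠ 0 := zz_ne0 hn0
  have hne : zz m ≠ zz (14 * k) := by
    intro h
    rw [h] at hm
    omega
  have hmn := mt (zz_eq_iff hm0 hn0).2 hne
  rw [not_or] at hmn
  have hA : zz (m + 14 * k) ≠ 0 := zz_ne0 (by intro h; exact hmn.2 (by omega))
  have hB : zz (m - 14 * k) ≠ 0 := zz_ne0 (by intro h; exact hmn.1 (by omega))
  -- valuations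
  have hx2n : -zz (14 * k) ≠ 0 := neg_ne_zero.2 hx2
  have v2048 : padicValRat 2 (2048 : ℚ) = 11 := by
    rw [show (2048 : ℚ) = 2 ^ 11 by norm_num, val_pow two_pr, val2_ofNat]; norm_num
  have v2 : padicValRat 2 (zz m * zz (14 * k)) = v + d := by
    rw [val_mul two_pr hx1 hx2, hm]
  have hx12 : zz m * zz (14 * k) ≠ 0 := mul_ne_zero hx1 hx2
  obtain ⟨n1, v1⟩ := val_add two_pr hx2n (y := zz m) (Or.inr (by
    rw [padicValRat.neg, ← hdd, hm]; omega))
  rw [← sub_eq_neg_add, padicValRat.neg, ← hdd] at v1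
  rw [← sub_eq_neg_add] at n1
  obtain ⟨n3, v3⟩ := val_sub two_pr hx12 (y := 2048) (Or.inr (by rw [v2, v2048]; omega))
  rw [v2] at v3
  obtain ⟨n4, v4⟩ := val_add two_pr hx12 (y := 2048) (Or.inr (by rw [v2, v2048]; omega))
  rw [v2] at v4
  obtain ⟨n5, v5⟩ := val_add two_pr hx2 (y := zz m) (Or.inr (by rw [← hdd, hm]; omega))
  rw [add_comm, ← hdd] at v5
  rw [add_comm] at n5
  have n6 : (zz m + zz (14 * k)) * (zz m * zz (14 * k) + 2048) ≠ 0 := mul_ne_zero n5 n4
  have v6 : padicValRat 2 ((zz m + zz (14 * k)) * (zz m * zz (14 * k) + 2048)) = v + 2 * d := by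
    rw [val_mul two_pr n5 n4, v5, v4]; ring
  obtain ⟨n7, v7⟩ := val_add two_pr n6 (y := 210 * zz m * zz (14 * k)) (by
    rw [v6]
    have h1 : Vge 2 (v + d) (zz m * zz (14 * k)) := Or.inr (by rw [v2])
    have h2 := (vge_ofNat 2 210).mul two_pr h1
    rw [← mul_assoc] at h2
    exact h2.mono (by omega))
  rw [v6] at v7
  have hprod := zz_prod_formula hm0 hn0 hne
  have hsum := zz_sum_formula hm0 hn0 hne
  have hp : padicValRat 2 (zz (m + 14 * k)) + padicValRat 2 (zz (m - 14 * k)) = 2 * v := by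
    rw [← val_mul two_pr hA hB, hprod, val_pow two_pr, val_div two_pr n3 n1, v3, v1]
    push_cast; ring
  have hs : padicValRat 2 (zz (m + 14 * k) + zz (m - 14 * k)) = v + 1 := by
    rw [hsum, val_div two_pr (mul_ne_zero two_ne_zero n7) (pow_ne_zero _ n1),
      val_mul two_pr two_ne_zero n7, val2_ofNat, v7, val_pow two_pr, v1]
    push_cast; ring
  rcases lt_trichotomy (padicValRat 2 (zz (m + 14 * k))) (padicValRat 2 (zz (m - 14 * k)))
    with h | h | h
  · have := (val_add two_pr hA (y := zz (m - 14 * k)) (Or.inr (by omega))).2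
    omega
  · omega
  · have := (val_add two_pr hB (y := zz (m + 14 * k)) (Or.inr (by omega))).2
    rw [add_comm] at this
    omega

lemma step' {m v : ℤ} (hm : padicValRat 2 (zz m) = v) (h3 : 3 ≤ v) (h11 : v ≤ 11) {n : ℤ}
    (hn : n % 14 = m % 14) : padicValRat 2 (zz n) = v := by
  by_cases h : n = m
  · rw [h, hm]
  · obtain ⟨k, hk⟩ : ∃ k, n = m + 14 * k := ⟨(n - m) / 14, by omega⟩
    have hk0 : k ≠ 0 := by rintro rfl; apply h; omega
    rw [hk]
    exact step hm h3 h11 hk0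

lemma table {n : ℤ} (h : ¬ (14 : ℤ) ∣ n) : padicValRat 2 (zz n) = v2tab (n % 14) := by
  have aux : ∀ (m v : ℤ), padicValRat 2 (zz m) = v → 3 ≤ v → v ≤ 11 →
      (n % 14 = m % 14 ∨ n % 14 = (-m) % 14) → padicValRat 2 (zz n) = v := by
    intro m v hm h3 h11 hn
    rcases hn with hn | hn
    · exact step' hm h3 h11 hn
    · exact step' (m := -m) (by rw [zz_neg]; exact hm) h3 h11 hn
  have h1 : n % 14 = 1 ∨ n % 14 = 2 ∨ n % 14 = 3 ∨ n % 14 = 4 ∨ n % 14 = 5 ∨ n % 14 = 6 ∨
    n % 14 = 7 ∨ n % 14 = 8 ∨ n % 14 = 9 ∨ n % 14 = 10 ∨ n % 14 = 11 ∨ n % 14 = 12 ∨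
    n % 14 = 13 := by omega
  rcases h1 with h | h | h | h | h | h | h | h | h | h | h | h | h
  · rw [aux 1 5 v_1 (by norm_num) (by norm_num) (by rw [h]; decide), h]; decide
  · rw [aux 2 8 v_2 (by norm_num) (by norm_num) (by rw [h]; decide), h]; decide
  · rw [aux 3 7 v_3 (by norm_num) (by norm_num) (by rw [h]; decide), h]; decide
  · rw [aux 4 4 v_4 (by norm_num) (by norm_num) (by rw [h]; decide), h]; decide
  · rw [aux 5 3 v_5 (by norm_num) (by norm_num) (by rw [h]; decide), h]; decide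
  · rw [aux 6 6 v_6 (by norm_num) (by norm_num) (by rw [h]; decide), h]; decide
  · rw [aux 7 11 v_7 (by norm_num) (by norm_num) (by rw [h]; decide), h]; decide
  · rw [aux 6 6 v_6 (by norm_num) (by norm_num) (by rw [h]; decide), h]; decide
  · rw [aux 5 3 v_5 (by norm_num) (by norm_num) (by rw [h]; decide), h]; decide
  · rw [aux 4 4 v_4 (by norm_num) (by norm_num) (by rw [h]; decide), h]; decide
  · rw [aux 3 7 v_3 (by norm_num) (by norm_num) (by rw [h]; decide), h]; decide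
  · rw [aux 2 8 v_2 (by norm_num) (by norm_num) (by rw [h]; decide), h]; decide
  · rw [aux 1 5 v_1 (by norm_num) (by norm_num) (by rw [h]; decide), h]; decide

lemma tab_pos (r : ℤ) : 0 < v2tab r := by
  unfold v2tab; split_ifs <;> norm_num

theorem v2 : S_V2 := by
  refine ⟨fun n => ⟨fun h => table h, ?_⟩, ?_⟩
  · rintro hn ⟨k, rfl⟩
    exact v_14k (by rintro rfl; simp at hn)
  · have h14 : padicValRat 2 (zz ((14 : ℕ) : ℤ)) < 0 := by
      have := v_14
      push_cast
      omega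
    obtain ⟨h1, h2⟩ := Rank.rk_min (by norm_num) h14
    have h3 := Rank.rk_spec h2
    have h4 : (14 : ℤ) ∣ (rk 2 : ℤ) := by
      by_contra hc
      rw [table hc] at h3
      have := tab_pos ((rk 2 : ℤ) % 14)
      omega
    have h5 : 14 ∣ rk 2 := by exact_mod_cast h4
    have := Nat.le_of_dvd (by omega) h5
    omega

end Pool.Agent.H358.TW
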